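import Pool.Agent.V11251.DS.ArbI

/-!
# Sums of an iterated-index prime and a prime, for rearranged digits

The analytic input (the laws of the random integers, second moments of the error for one form with arbitrary weights) is
in the starting files `Pool.Agent.H373R2.T7`, `Pool.Agent.W93`, `Pool.Agent.TH872`; new are the systems of several forms
with arbitrary weights and the passage to primes (`Pool.Agent.V11251.DS`).
-/

set_option autoImplicit false

namespace Pool.Agent.Results.MP_e3f158_nt.RearrangedIterates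

open Finset

/-- `d` is a word of `k` digits in base `b`, in which no digit stands at more than `(1 - η) k` places. -/
def Mixed (b k : ℕ) (η : ℝ) (d : Fin k → ℕ) : Prop :=
  (∀ i, d i < b) ∧ ∀ a, ((univ.filter fun i => d i = a).card : ℝ) ≤ (1 - η) * k

/-- The integer whose `k` digits in base `b` are the digits `d` rearranged by the permutation `σ`: the digit number `j`
(the coefficient of `b ^ j`) is `d (σ j)`. -/
def rearranged (b : ℕ) {k : ℕ} (d : Fin k → ℕ) (σ : Equiv.Perm (Fin k)) : ℕ := ∑ j : Fin k, d (σ j) * b ^ (j : ℕ)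

open Classical in
/-- The sieve model of the indicator function of the primes: `1 / (log x ∏_{p ≤ z} (1 - 1 / p))` if `x ≥ 2` has no prime
factor `≤ z`, and `0` if `x = 0` or if `x` has a prime factor `≤ z` (for `x = 1` the logarithm is replaced by `log 2`). -/
noncomputable def model (z x : ℕ) : ℝ :=
  if 1 ≤ x ∧ ∀ p : ℕ, p.Prime → p ≤ z → ¬ p ∣ x then
    1 / (Real.log (max x 2 : ℕ) * ∏ p ∈ (Icc 1 z).filter Nat.Prime, (1 - 1 / (p : ℝ))) else 0

/-- The `x`-th prime `p(x)`, with `p(1) = 2`. -/
noncomputable def pr (x : ℕ) : ℕ := Nat.nth Nat.Prime (x - 1)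

/-- The `a`-primes: the numbers `p(p(...p(x)...))` with `a + 1` applications of `p`, `x ≥ 1`. -/
def iterated (a : ℕ) : Set ℕ := {q | ∃ x, 1 ≤ x ∧ pr^[a + 1] x = q}

open Classical in
/-- The `a`-primes `q ≤ X`. -/
noncomputable def upTo (a X : ℕ) : Finset ℕ := (Icc 1 X).filter (fun q => q ∈ iterated a)

open Classical in
/-- The `a`-primes `q ≤ X` for which all the numbers `Y i - q` are primes. For `2 X < Y i` and even `Y i` this gives
representations of the type `(a, 0)` of the problem. -/
noncomputable def common {s : ℕ} (a : ℕ) (Y : Fin s → ℕ) (X : ℕ) : Finset ℕ :=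
  (upTo a X).filter (fun q => ∀ i, (Y i - q).Prime)

/-- For all `a ≤ log ^ K N` and `X ≤ N`, the number of the `a`-primes `q ≤ X` for which all the `Y i - q` are primes is equal
to the sum of the products of the models of `Y i - q` over all the `a`-primes `q ≤ X`, up to an error of at most
`N / log ^ U N`. -/
def Good {s : ℕ} (z K U N : ℕ) (Y : Fin s → ℕ) : Prop :=
  ∀ a : ℕ, (a : ℝ) ≤ Real.log N ^ K → ∀ X ≤ N,
    |((common a Y X).card : ℝ) - ∑ q ∈ upTo a X, ∏ i, model z (Y i - q)| ≤ N / Real.log N ^ U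

open Classical in
/-- Let `s`, bases `b i ≥ 2`, `η > 0` and `κ i ≥ 1` (`i < s`), `B`, `K` and `U` be fixed, let `E` be a sufficiently large
exponent, let `N` be large, `log ^ E N ≤ z ≤ log ^ (E + 1) N`, let `k i` be lengths with `N / B ≤ b i ^ k i ≤ B N`, let
`0 ≤ c i ≤ B N`, and let `d i` be ANY word of `k i` digits in base `b i` in which no digit stands at more than `(1 - η) k i`
places. Rearrange the digits of each `d i` by a permutation `σ i`, let `v i` be the integer with the rearranged digits, and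
put `Y i = c i + κ i v i`. Then all the vectors `(σ 1, ..., σ s)` of permutations, with the exception of a proportion of at
most `1 / log ^ U N` of them, have the following property, for all `a ≤ log ^ K N` and
all `X ≤ N`: the number of the `a`-primes `q ≤ X` for which all the numbers `Y i - q` are primes is the number predicted by
the sieve model, up to an error of at most `N / log ^ U N`: the sum, over the `a`-primes `q ≤ X` for which no `Y i - q` has a
prime factor `≤ z`, of the products of the `1 / (log (Y i - q) ∏_{p ≤ z} (1 - 1 / p))`. -/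
theorem result (s : ℕ) (b : Fin s → ℕ) (hb : ∀ i, 2 ≤ b i) (η : ℝ) (hη : 0 < η) (κ : Fin s → ℕ) (hκ : ∀ i, 1 ≤ κ i)
    (B K U : ℕ) :
    ∃ E₀ : ℕ, ∀ E : ℕ, E₀ ≤ E → ∃ N₀ : ℕ, ∀ N, N₀ ≤ N → ∀ k : Fin s → ℕ, (∀ i, N ≤ B * b i ^ k i ∧ b i ^ k i ≤ B * N) →
      ∀ d : ∀ i, Fin (k i) → ℕ, (∀ i, Mixed (b i) (k i) η (d i)) →
      ∀ c : Fin s → ℕ, (∀ i, c i ≤ B * N) → ∀ z : ℕ, Real.log N ^ E ≤ z → (z : ℝ) ≤ Real.log N ^ (E + 1) →
      ((univ.filter fun σ : ∀ i, Equiv.Perm (Fin (k i)) =>
        ¬ Good z K U N (fun i => c i + κ i * rearranged (b i) (d i) (σ i))).card : ℝ) ≤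
      ((∏ i, (k i).factorial : ℕ) : ℝ) / Real.log N ^ U := by
  obtain ⟨E₀, h⟩ := Pool.Agent.V11251.DS.idx_perm s b hb η hη (fun i => (κ i : ℤ)) (fun _ => -1)
    (fun i => by have := hκ i; exact_mod_cast (by omega : κ i ≠ 0)) (fun _ => by norm_num) B (K + 1) U
  refine ⟨E₀, fun E hE => ?_⟩
  obtain ⟨N₀, h1⟩ := h E hE
  refine ⟨N₀ + 8, fun N hN k hk d hd c hc z hz1 hz2 => ?_⟩
  have hlog : 2 ≤ Real.log N := by
    have h8 : Real.log 8 ≤ Real.log N := Real.log_le_log (by norm_num) (by exact_mod_cast (by omega : 8 ≤ N))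
    have h9 : Real.log 8 = 3 * Real.log 2 := by rw [← Real.log_rpow (by norm_num)]; norm_num
    have := Real.log_two_gt_d9
    linarith
  have hcard : ((range (⌊Real.log N ^ K⌋₊ + 1)).card : ℝ) ≤ Real.log N ^ (K + 1) := by
    have h3 : (1 : ℝ) ≤ Real.log N ^ K := one_le_pow₀ (by linarith)
    have h4 : (⌊Real.log N ^ K⌋₊ : ℝ) ≤ Real.log N ^ K := Nat.floor_le (by positivity)
    rw [card_range]
    push_cast
    calc (⌊Real.log N ^ K⌋₊ : ℝ) + 1 ≤ 2 * Real.log N ^ K := by linarith
      _ ≤ Real.log N * Real.log N ^ K := mul_le_mul_of_nonneg_right hlog (by linarith)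
      _ = Real.log N ^ (K + 1) := by rw [pow_succ]; ring
  rw [Nat.cast_prod]
  refine h1 N (by omega) k (fun i => ⟨(hk i).2, (hk i).1⟩) d (fun i => ⟨(hd i).1, (hd i).2⟩) (fun i => (c i : ℤ))
    (fun i => by rw [abs_of_nonneg (by positivity)]; exact_mod_cast hc i)
    z hz1 hz2 (ℕ) (range (⌊Real.log N ^ K⌋₊ + 1)) (hcard) (fun D => iterated D) (fun σ => Good z K U N (fun i => c i + κ i * rearranged (b i) (d i) (σ i))) (fun σ hv => ?_)
  intro e he2 X hX
  have h2 := hv e (by
    rw [mem_range]
    exact Nat.lt_succ_of_le (Nat.le_floor he2)) X hX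
  have e2 : ∀ i, (((c i + κ i * rearranged (b i) (d i) (σ i) : ℕ)) : ℤ) = (c i : ℤ) + (κ i : ℤ) * (((Pool.Agent.TH872.An.V (b i) (d i) (σ i) : ℕ) : ℕ) : ℤ) := fun i => by
    push_cast; rfl
  rw [Pool.Agent.V11251.DS.DC_set' _ X z _ _ (upTo e X) (common e (fun i => c i + κ i * rearranged (b i) (d i) (σ i)) X)
    (fun q => ∏ i, model z (c i + κ i * rearranged (b i) (d i) (σ i) - q))] at h2
  · exact h2
  · intro n
    unfold upTo
    rw [mem_filter]
  · intro n
    unfold common upTo
    rw [mem_filter, mem_filter, and_assoc]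
    apply and_congr Iff.rfl
    apply and_congr Iff.rfl
    apply forall_congr'
    intro i
    rw [← e2]
    have h3 : (-1 * (n : ℤ) + ((c i + κ i * rearranged (b i) (d i) (σ i) : ℕ) : ℤ)).toNat = c i + κ i * rearranged (b i) (d i) (σ i) - n := by omega
    rw [h3]
  · intro n _
    apply prod_congr rfl
    intro i _
    rw [← e2, Pool.Agent.V11251.DS.Mo_sub]
    rfl

end Pool.Agent.Results.MP_e3f158_nt.RearrangedIterates
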