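import Pool.Agent.Results.MP_e3f158_nt.UniformTypesAZero
import Pool.Agent.Results.MP_e3f158_nt.AllTypesAtOnce
import Pool.Agent.V11285.SU

/-!
# Explicit thresholds for sums of iterated-index primes: the members of sparse sequences

For `c > 1` and all `α > 0` outside a set of Hausdorff dimension less than `1`, with `m = ⌊α n ^ c⌋`:

1. for every `A`, for at least `c₁ N / log log log log N` of the `n ≤ N` the number `2 m` has representations of all types
  `(a, 0)`, `a ≤ A`;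
2. for at least `c₁ N / log log N` of the `n ≤ N` the number `2 m` has representations of ALL types `(a, b)` with `a b = 0` and
  `f₂ (a, b) ≤ m`: the assertion of the problem for these types and these numbers;
3. for at least `c₁ N exp (- √(log M) log log M)` of the `n ≤ N`, `M = ⌊α N ^ c⌋`, the number `2 m` has representations of ALL
  types `(a, b)` with `f₂ (a, b) ≤ m`: the assertion of the problem for these numbers.
-/

set_option autoImplicit false

namespace Pool.Agent.Results.MP_e3f158_nt.SparseSequences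

open Filter
open Pool.Agent.V11285
open Pool.Agent.Results.MP_e3f158_nt.UniformTypesAZero (HasRep f₂)

/-- **The members of sparse sequences.** -/
theorem result (c : ℝ) (hc : 1 < c) :
    ∃ E : Set ℝ, dimH E < 1 ∧ ∀ α : ℝ, 0 < α → α ∉ E →
      (∀ A : ℕ, ∃ c₁ : ℝ, 0 < c₁ ∧ ∀ᶠ N : ℕ in atTop,
        c₁ * N / Real.log (Real.log (Real.log (Real.log N))) ≤
          ({n : ℕ | 1 ≤ n ∧ n ≤ N ∧ ∀ a ≤ A, HasRep a 0 (2 * ⌊α * (n : ℝ) ^ c⌋₊)}.ncard : ℝ)) ∧
      (∃ c₁ : ℝ, 0 < c₁ ∧ ∀ᶠ N : ℕ in atTop,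
        c₁ * N / Real.log (Real.log N) ≤
          ({n : ℕ | 1 ≤ n ∧ n ≤ N ∧ ∀ a b : ℕ, a = 0 ∨ b = 0 → f₂ a b ≤ (⌊α * (n : ℝ) ^ c⌋₊ : ℕ) →
            HasRep a b (2 * ⌊α * (n : ℝ) ^ c⌋₊)}.ncard : ℝ)) ∧
      (∃ c₁ : ℝ, 0 < c₁ ∧ ∀ᶠ N : ℕ in atTop,
        c₁ * N / Real.exp (√(Real.log (⌊α * (N : ℝ) ^ c⌋₊ : ℕ)) * Real.log (Real.log (⌊α * (N : ℝ) ^ c⌋₊ : ℕ))) ≤
          ({n : ℕ | 1 ≤ n ∧ n ≤ N ∧ ∀ a b : ℕ, f₂ a b ≤ (⌊α * (n : ℝ) ^ c⌋₊ : ℕ) →
            HasRep a b (2 * ⌊α * (n : ℝ) ^ c⌋₊)}.ncard : ℝ)) := by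
  have hc0 : 0 < c := by linarith
  obtain ⟨E₁, hE₁, h₁⟩ := SS.slow c hc (fun A m : ℕ => ∀ a ≤ A, HasRep a 0 (2 * m))
  obtain ⟨E₂, hE₂, h₂⟩ := SS.slow c hc
    (fun (_ : Unit) (m : ℕ) => ∀ a b : ℕ, a = 0 ∨ b = 0 → f₂ a b ≤ (m : ℕ) → HasRep a b (2 * m))
  obtain ⟨E₃, hE₃, h₃⟩ := SS.slow c hc (fun (_ : Unit) (m : ℕ) => ∀ a b : ℕ, f₂ a b ≤ (m : ℕ) → HasRep a b (2 * m))
  obtain ⟨⟨c0, K, hc0', hK, r1⟩, c2, hc2, r2⟩ := UniformTypesAZero.result
  refine ⟨E₁ ∪ (E₂ ∪ E₃), ?_, fun α hα hαE => ⟨fun A => ?_, ?_, ?_⟩⟩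
  · rw [dimH_union, dimH_union]
    exact max_lt hE₁ (max_lt hE₂ hE₃)
  · have hX := SS.tendsto_X hα hc0
    have d1 : ∀ η : ℝ, 0 < η → ∀ᶠ x : ℕ in atTop, Real.log (Real.log (Real.log (Real.log (x : ℝ)))) ≤ (x : ℝ) ^ η :=
      fun η hη => (SU.below η hη).mono fun x hx => hx.2.2
    have d0 : ∀ᶠ x : ℕ in atTop, c0 / 2 * x / Real.log (Real.log (Real.log (Real.log (x : ℝ)))) ≤
        (({n : ℕ | n ≤ x ∧ ∀ a ≤ A, HasRep a 0 (2 * n)}.ncard : ℕ) : ℝ) := by
      filter_upwards [r1, SU.t1.eventually (eventually_ge_atTop (K * (((A : ℝ) + 2) * Real.log ((A : ℝ) + 2)))),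
        SU.t4.eventually (eventually_ge_atTop (Real.log ((A : ℝ) + 2))), SU.t4.eventually (eventually_gt_atTop 0)]
        with x g1 g2 g3 g4
      refine le_trans ?_ (g1 A g2)
      have hA : 0 ≤ Real.log ((A : ℝ) + 2) := Real.log_nonneg (by
        have : (0 : ℝ) ≤ A := Nat.cast_nonneg A
        linarith)
      calc c0 / 2 * x / Real.log (Real.log (Real.log (Real.log (x : ℝ))))
          = c0 * x / (2 * Real.log (Real.log (Real.log (Real.log (x : ℝ))))) := by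
            field_simp
        _ ≤ c0 * x / (Real.log ((A : ℝ) + 2) + Real.log (Real.log (Real.log (Real.log (x : ℝ))))) :=
            div_le_div_of_nonneg_left (by positivity) (by positivity) (by linarith)
        _ = c0 * (x / (Real.log ((A : ℝ) + 2) + Real.log (Real.log (Real.log (Real.log (x : ℝ)))))) := by ring
    have g := h₁ α hα (fun h => hαE (Or.inl h)) A (c0 / 2 / 2)
      (fun x : ℕ => Real.log (Real.log (Real.log (Real.log (x : ℝ))))) (by positivity)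
      (SU.t4.eventually (eventually_gt_atTop 0)) d1
      (SU.drop_zero _ (c0 / 2) _ (by positivity) (SU.t4.eventually (eventually_gt_atTop 0)) d1 d0)
    refine ⟨c0 / 2 / 2 / (4 * c) / 2, by positivity, ?_⟩
    filter_upwards [g, SS.logs_X hα hc0, SU.t4.eventually (eventually_gt_atTop 0),
      (SU.t4.comp hX).eventually (eventually_gt_atTop 0)] with N g1 g2 g3 g4
    refine le_trans ?_ g1
    simp only [Function.comp_apply] at g4
    calc c0 / 2 / 2 / (4 * c) / 2 * N / Real.log (Real.log (Real.log (Real.log N)))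
        = c0 / 2 / 2 / (4 * c) * N / (2 * Real.log (Real.log (Real.log (Real.log N)))) := by
          field_simp
      _ ≤ c0 / 2 / 2 / (4 * c) * N / Real.log (Real.log (Real.log (Real.log (⌊α * (N : ℝ) ^ c⌋₊ : ℕ)))) :=
          div_le_div_of_nonneg_left (by positivity) g4 g2.2.2
  · have hX := SS.tendsto_X hα hc0
    have d1 : ∀ η : ℝ, 0 < η → ∀ᶠ x : ℕ in atTop, Real.log (Real.log (x : ℝ)) ≤ (x : ℝ) ^ η :=
      fun η hη => (SU.below η hη).mono fun x hx => hx.1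
    have d0 : ∀ᶠ x : ℕ in atTop, c2 * x / Real.log (Real.log (x : ℝ)) ≤ (({n : ℕ | n ≤ x ∧
        ∀ a b : ℕ, a = 0 ∨ b = 0 → f₂ a b ≤ n → HasRep a b (2 * n)}.ncard : ℕ) : ℝ) := by
      filter_upwards [r2] with x g1
      refine le_trans (le_of_eq ?_) g1
      ring
    have g := h₂ α hα (fun h => hαE (Or.inr (Or.inl h))) () (c2 / 2)
      (fun x : ℕ => Real.log (Real.log (x : ℝ))) (by positivity)
      (SU.t2.eventually (eventually_gt_atTop 0)) d1
      (SU.drop_zero _ c2 _ hc2 (SU.t2.eventually (eventually_gt_atTop 0)) d1 d0)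
    refine ⟨c2 / 2 / (4 * c) / 2, by positivity, ?_⟩
    filter_upwards [g, SS.logs_X hα hc0, SU.t2.eventually (eventually_gt_atTop 0),
      (SU.t2.comp hX).eventually (eventually_gt_atTop 0)] with N g1 g2 g3 g4
    refine le_trans ?_ g1
    simp only [Function.comp_apply] at g4
    calc c2 / 2 / (4 * c) / 2 * N / Real.log (Real.log N)
        = c2 / 2 / (4 * c) * N / (2 * Real.log (Real.log N)) := by
          field_simp
      _ ≤ c2 / 2 / (4 * c) * N / Real.log (Real.log (⌊α * (N : ℝ) ^ c⌋₊ : ℕ)) :=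
          div_le_div_of_nonneg_left (by positivity) g4 g2.1
  · have d2 : ∀ᶠ x : ℕ in atTop, 0 < Real.exp (√(Real.log (x : ℝ)) * Real.log (Real.log (x : ℝ))) :=
      Eventually.of_forall fun x => Real.exp_pos _
    have d0 : ∀ᶠ x : ℕ in atTop, (1 : ℝ) * x / Real.exp (√(Real.log (x : ℝ)) * Real.log (Real.log (x : ℝ))) ≤
        (({n : ℕ | n ≤ x ∧ ∀ a b : ℕ, f₂ a b ≤ n → HasRep a b (2 * n)}.ncard : ℕ) : ℝ) := by
      filter_upwards [AllTypesAtOnce.result] with x g1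
      refine le_trans (le_of_eq ?_) g1
      rw [Real.exp_neg]
      ring
    exact ⟨1 / 2 / (4 * c), by positivity, h₃ α hα (fun h => hαE (Or.inr (Or.inr h))) () (1 / 2)
      (fun x : ℕ => Real.exp (√(Real.log (x : ℝ)) * Real.log (Real.log (x : ℝ)))) (by positivity)
      d2 SU.exp_below (SU.drop_zero _ 1 _ one_pos d2 SU.exp_below d0)⟩

end Pool.Agent.Results.MP_e3f158_nt.SparseSequences
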